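import Pool.Agent.helper16.EXT.Spec3T

/-!
# IAD: a collinear pair spans root groups
-/

set_option autoImplicit false

open Finset

namespace Pool.Agent.EXT

open Pool.Agent.EXC

/-- IAD -/
theorem IAD (hRTF : RTF_stmt) (hESF : ESF_stmt) (hSGR : SGR_stmt) : IAD_stmt := by
  intro K _ τ hτ a b hT u v hu0 hv0 huv
  obtain ⟨k, hk, β, ⟨hβ, hpβ⟩, hm, c, c', hτc, hτc', hc, hc', hka, hkb⟩ := hT
  obtain ⟨-, -, hpadd, hpneg, -, -, -, -, -, -, -, -, -, hLth, -⟩ := hRTF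
  have hθ : ip C6 th th = 2 := hLth.1
  have hE : IsE CartanMatrix.E₆ 1 th ![0, 2, 3, 4, 5] := f_DE6.2
  have hnb := (f_NBR 6 C6 1 th ![0, 2, 3, 4, 5] hE).1
  obtain ⟨hAu, hExE, hEx, -⟩ := f_EXF 6 C6 K hnb
  obtain ⟨hSE, hS⟩ := hESF K τ hτ
  have hkG : k ∈ GE C6 K := ((hSGR K τ hτ).2.2.2.2.2 k hk).1
  have hkinv : k⁻¹ ∈ GS τ := (GS τ).inv_mem hk
  have hback : ∀ x, ExS τ (k x) → ExS τ x := by
    intro x hx
    have h1 := (hS (k x) hx).2.2.2.1 k⁻¹ hkinv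
    have h2 : (k⁻¹ : Lm C6 K ≃ₗ[K] Lm C6 K) (k x) = x := k.symm_apply_apply x
    rwa [h2] at h1
  have hSθ : ExS τ (E C6 th : Lm C6 K) := hSE th hLth
  have hSβ : ExS τ (E C6 β : Lm C6 K) := hSE β ⟨hβ, hpβ⟩
  have hkuv : k (u • a + v • b) = (u * c) • (E C6 th : Lm C6 K) + (v * c') • E C6 β := by
    rw [map_add, map_smul, map_smul, hka, hkb, smul_smul, smul_smul]
  have hτuc : τ (u * c) = u * c := by rw [map_mul, hu0, hτc]
  have hτvc : τ (v * c') = v * c' := by rw [map_mul, hv0, hτc']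
  have hEa : ExS τ a := hback a (hka ▸ (hS _ hSθ).2.2.2.2.1 c hτc hc)
  have hEb : ExS τ b := hback b (hkb ▸ (hS _ hSβ).2.2.2.2.1 c' hτc' hc')
  have hExuv : ExS τ (u • a + v • b) := by
    apply hback
    rw [hkuv]
    by_cases hv : v = 0
    · subst hv
      have hu : u ≠ 0 := by
        rcases huv with h | h
        · exact h
        · exact absurd rfl h
      rw [zero_mul, zero_smul, add_zero]
      exact (hS _ hSθ).2.2.2.2.1 _ hτuc (mul_ne_zero hu hc)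
    by_cases hu : u = 0
    · subst hu
      rw [zero_mul, zero_smul, zero_add]
      exact (hS _ hSβ).2.2.2.2.1 _ hτvc (mul_ne_zero hv hc')
    have hγ : ip C6 (th - β) (th - β) = 2 := (sub_root_iff hθ hβ).2 hm
    have hγβ : ip C6 (th - β) β = -1 := by
      rw [ip_sub_left, hm, hβ]
      norm_num
    have hpγ : pv (th - β) = th - β := by
      rw [sub_eq_add_neg, hpadd, hpneg, hLth.2, hpβ]
    have hvc : v * c' ≠ 0 := mul_ne_zero hv hc'
    have hτt : τ ((u * c) * (sg C6 (th - β) β : K) / (v * c')) = (u * c) * (sg C6 (th - β) β : K) / (v * c') := by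
      rw [map_div₀, map_mul, hτuc, hτvc, map_intCast]
    obtain ⟨g, hg, hgX⟩ := (hS _ (hSE (th - β) ⟨hγ, hpγ⟩)).2.2.2.2.2.1 _ hτt
    have h1 := (f_ACT 6 C6 K (th - β) ((u * c) * (sg C6 (th - β) β : K) / (v * c')) hγ).2.1 β hβ hγβ
    rw [sub_add_cancel] at h1
    have h2 : (u * c) • (E C6 th : Lm C6 K) + (v * c') • E C6 β = (v * c') • g (E C6 β) := by
      rw [hgX, h1, smul_add, smul_smul, add_comm]
      congr 2
      have h3 := sg_sq (F := K) C6 (th - β) β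
      field_simp
      rw [pow_two, h3]
    rw [h2]
    exact (hS _ ((hS _ hSβ).2.2.2.1 g hg)).2.2.2.2.1 _ hτvc hvc
  refine ⟨hExuv, ?_⟩
  intro g h hg hh w
  have hkA := hAu k hkG
  have hXa := (hEx a (hS a hEa).1).1
  have hXb := (hEx b (hS b hEb).1).1
  have hXuv := (hEx _ (hS _ hExuv).1).1
  have hXθ := (hEx _ (hExE th hθ)).1
  have hXβ := (hEx _ (hExE β hβ)).1
  apply k.injective
  have e1 : ((((g * h : GF τ) : Equiv.Perm (LT τ)) w : LT τ) : Lm C6 K) =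
      ((g : Equiv.Perm (LT τ)) ((h : Equiv.Perm (LT τ)) w) : LT τ) := rfl
  rw [e1, hg ((h : Equiv.Perm (LT τ)) w), hh w, ((f_XAU 6 C6 K a hXa).2.2.1 k hkA).2, ((f_XAU 6 C6 K b hXb).2.2.1 k hkA).2,
    ((f_XAU 6 C6 K _ hXuv).2.2.1 k hkA).2, hkuv, hka, hkb, ((f_XAU 6 C6 K _ hXθ).2.2.2 c).2, ((f_XAU 6 C6 K _ hXβ).2.2.2 c').2,
    ((f_COL 6 C6 K th β hθ hβ).1 hm).1, mul_one, mul_one, mul_comm c u, mul_comm c' v]

end Pool.Agent.EXT
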